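import Mathlib

/-!
# Three-sunflower-free families of `l`-sets with pairwise intersections of size at most two
Definitions, the repair lemma and two disjoint copies.
-/

set_option autoImplicit false

open Finset

namespace Pool.Agent.Work.MP_49280d_co

/-- `F` is a family of `l`-element sets, any two of which meet in at most two points, and which
contains no three-sunflower: no three distinct members with equal pairwise intersections (which may
be empty). -/
def Adm (l : ℕ) (F : Finset (Finset ℕ)) : Prop :=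
  (∀ A ∈ F, A.card = l) ∧ (∀ A ∈ F, ∀ B ∈ F, A ≠ B → (A ∩ B).card ≤ 2) ∧
  ∀ A ∈ F, ∀ B ∈ F, ∀ C ∈ F, A ≠ B → A ≠ C → B ≠ C → ¬ (A ∩ B = A ∩ C ∧ A ∩ C = B ∩ C)

/-- `M_3(l, 2)`. -/
noncomputable def M3 (l : ℕ) : ℕ := sSup {N | ∃ F : Finset (Finset ℕ), Adm l F ∧ F.card = N}

/-- An indexed intersecting family of `s`-sets with pairwise intersections of size 1 or 2 and no
three-sunflower. -/
structure GoodFam {ι α : Type} [DecidableEq α] (s : ℕ) (H : ι → Finset α) : Prop where
  card : ∀ i, (H i).card = s
  pos : ∀ i j, i ≠ j → (H i ∩ H j).Nonempty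
  le : ∀ i j, i ≠ j → (H i ∩ H j).card ≤ 2
  nosun : ∀ i j k, i ≠ j → i ≠ k → j ≠ k → ¬ (H i ∩ H j = H i ∩ H k ∧ H i ∩ H k = H j ∩ H k)

/-- There is a good family of `N` sets of size `s`. -/
def Good (s N : ℕ) : Prop := ∃ H : Fin N → Finset ℕ, GoodFam s H

lemma GoodFam.comp {ι κ α : Type} [DecidableEq α] {s : ℕ} {H : ι → Finset α}
    (h : GoodFam s H) (f : κ → ι) (hf : Function.Injective f) : GoodFam s (fun k => H (f k)) where
  card _ := h.card _
  pos _ _ hij := h.pos _ _ (fun e => hij (hf e))
  le _ _ hij := h.le _ _ (fun e => hij (hf e))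
  nosun _ _ _ hij hik hjk :=
    h.nosun _ _ _ (fun e => hij (hf e)) (fun e => hik (hf e)) (fun e => hjk (hf e))

lemma GoodFam.map {ι α β : Type} [DecidableEq α] [DecidableEq β] {s : ℕ} {H : ι → Finset α}
    (h : GoodFam s H) (f : α ↪ β) : GoodFam s (fun i => (H i).map f) where
  card i := by rw [card_map]; exact h.card i
  pos i j hij := by
    rw [← map_inter]; exact (h.pos i j hij).map
  le i j hij := by
    rw [← map_inter, card_map]; exact h.le i j hij
  nosun i j k hij hik hjk := by
    rw [← map_inter, ← map_inter, ← map_inter]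
    rintro ⟨h1, h2⟩
    exact h.nosun i j k hij hik hjk ⟨map_injective f h1, map_injective f h2⟩

/-- A good family indexed by any finite type on any countable type of points. -/
lemma Good.of_fam {ι α : Type} [Fintype ι] [DecidableEq α] [Countable α] {s N : ℕ}
    {H : ι → Finset α} (h : GoodFam s H) (hN : N ≤ Fintype.card ι) : Good s N := by
  obtain ⟨f, hf⟩ := exists_injective_nat α
  refine ⟨fun i => (H ((Fintype.equivFin ι).symm (Fin.castLE hN i))).map ⟨f, hf⟩, ?_⟩
  exact (h.map ⟨f, hf⟩).comp (fun i => (Fintype.equivFin ι).symm (Fin.castLE hN i))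
    ((Fintype.equivFin ι).symm.injective.comp (Fin.castLE_injective hN))

/-- Good families indexed by a finite type. -/
lemma Good.to_fam {s N : ℕ} (h : Good s N) (ι : Type) [Fintype ι] (hN : Fintype.card ι ≤ N) :
    ∃ H : ι → Finset ℕ, GoodFam s H := by
  obtain ⟨H, hH⟩ := h
  exact ⟨fun i => H (Fin.castLE hN (Fintype.equivFin ι i)),
    hH.comp _ ((Fin.castLE_injective hN).comp (Fintype.equivFin ι).injective)⟩

lemma Good.mono {s N N' : ℕ} (h : Good s N) (hN : N' ≤ N) : Good s N' := by
  obtain ⟨H, hH⟩ := h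
  exact Good.of_fam hH (by simpa using hN)

lemma disjSum_inter {α β : Type} [DecidableEq α] [DecidableEq β] (X X' : Finset α)
    (Y Y' : Finset β) : X.disjSum Y ∩ X'.disjSum Y' = (X ∩ X').disjSum (Y ∩ Y') := by
  ext a
  rcases a with a | a <;> simp

/-- **Repair lemma.** Blocks `B i` of size `k` with classes `cl i`: blocks of the same class are
disjoint, blocks of different classes meet in one or two points, no three blocks with different
classes form a sunflower. Adding to every class a private copy of a good family of `s`-sets gives a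
good family. -/
lemma repair {ι κ ρ α β : Type} [DecidableEq α] [DecidableEq β] [DecidableEq κ] {k s : ℕ}
    {B : ι → Finset α} {cl : ι → κ} {r : ι → ρ} {H : ρ → Finset β} (hH : GoodFam s H)
    (hr : ∀ i j, cl i = cl j → r i = r j → i = j)
    (hk : ∀ i, (B i).card = k)
    (hdisj : ∀ i j, i ≠ j → cl i = cl j → B i ∩ B j = ∅)
    (hpos : ∀ i j, cl i ≠ cl j → (B i ∩ B j).Nonempty)
    (hle : ∀ i j, cl i ≠ cl j → (B i ∩ B j).card ≤ 2)
    (hsun : ∀ i j l, cl i ≠ cl j → cl i ≠ cl l → cl j ≠ cl l →
      ¬ (B i ∩ B j = B i ∩ B l ∧ B i ∩ B l = B j ∩ B l)) :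
    GoodFam (k + s) (fun i => (B i).disjSum ((H (r i)).map
      ⟨fun b => (cl i, b), fun _ _ h => (Prod.mk.inj h).2⟩)) := by
  set G : ι → Finset (κ × β) := fun i => (H (r i)).map
      ⟨fun b => (cl i, b), fun _ _ h => (Prod.mk.inj h).2⟩ with hG
  have memG : ∀ i c b, (c, b) ∈ G i ↔ c = cl i ∧ b ∈ H (r i) := by
    intro i c b
    simp only [hG, mem_map, Function.Embedding.coeFn_mk, Prod.mk.injEq]
    constructor
    · rintro ⟨x, hx, h1, h2⟩
      exact ⟨h1.symm, h2 ▸ hx⟩
    · rintro ⟨h1, h2⟩
      exact ⟨b, h2, h1.symm, rfl⟩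
  have Gsame : ∀ i j, cl i = cl j → G i ∩ G j = (H (r i) ∩ H (r j)).map
      ⟨fun b => (cl i, b), fun _ _ h => (Prod.mk.inj h).2⟩ := by
    intro i j hij
    rw [map_inter]
    simp only [hG]
    congr 1
    rw [hij]
  have Gdiff : ∀ i j, cl i ≠ cl j → G i ∩ G j = ∅ := by
    intro i j hij
    ext ⟨c, b⟩
    simp only [mem_inter, memG, notMem_empty, iff_false, not_and]
    rintro ⟨h1, -⟩ h2
    exact absurd (h1.symm.trans h2) hij
  have rne : ∀ i j, i ≠ j → cl i = cl j → r i ≠ r j := fun i j hij hc e => hij (hr i j hc e)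
  have hint : ∀ i j, (B i).disjSum (G i) ∩ (B j).disjSum (G j) =
      (B i ∩ B j).disjSum (G i ∩ G j) := fun i j => disjSum_inter _ _ _ _
  have hcard : ∀ i j, ((B i).disjSum (G i) ∩ (B j).disjSum (G j)).card =
      (B i ∩ B j).card + (G i ∩ G j).card := fun i j => by rw [hint, card_disjSum]
  refine ⟨fun i => ?_, fun i j hij => ?_, fun i j hij => ?_, fun i j l hij hil hjl => ?_⟩
  · rw [card_disjSum, hk, card_map, hH.card]
  · rw [← card_pos, hcard]
    by_cases hc : cl i = cl j
    · have := card_pos.2 (hH.pos _ _ (rne i j hij hc))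
      rw [Gsame i j hc, card_map]
      omega
    · have := card_pos.2 (hpos i j hc)
      omega
  · rw [hcard]
    by_cases hc : cl i = cl j
    · have := hH.le _ _ (rne i j hij hc)
      rw [Gsame i j hc, card_map, hdisj i j hij hc, card_empty]
      omega
    · have := hle i j hc
      rw [Gdiff i j hc, card_empty]
      omega
  · rintro ⟨h1, h2⟩
    rw [hint, hint] at h1
    rw [hint, hint] at h2
    have inl_eq : ∀ (X X' : Finset α) (Y Y' : Finset (κ × β)), X.disjSum Y = X'.disjSum Y' →
        X = X' ∧ Y = Y' := by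
      intro X X' Y Y' h
      constructor
      · ext a
        have := congrArg (fun S => Sum.inl a ∈ S) h
        simpa using this
      · ext a
        have := congrArg (fun S => Sum.inr a ∈ S) h
        simpa using this
    obtain ⟨h3, h4⟩ := inl_eq _ _ _ _ h1
    obtain ⟨h5, h6⟩ := inl_eq _ _ _ _ h2
    by_cases hc : cl i = cl j
    · -- `B i ∩ B j` is empty
      have e1 := hdisj i j hij hc
      by_cases hc' : cl i = cl l
      · have hc'' : cl j = cl l := hc.symm.trans hc'
        rw [Gsame i j hc, Gsame i l hc', map_inj] at h4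
        rw [Gsame i l hc', Gsame j l hc''] at h6
        have h7 : H (r i) ∩ H (r l) = H (r j) ∩ H (r l) := by
          have : (⟨fun b => (cl j, b), fun _ _ h => (Prod.mk.inj h).2⟩ : β ↪ κ × β) =
            ⟨fun b => (cl i, b), fun _ _ h => (Prod.mk.inj h).2⟩ := by
            ext b <;> simp [hc]
          rw [this, map_inj] at h6
          exact h6
        exact hH.nosun _ _ _ (rne i j hij hc) (rne i l hil hc') (rne j l hjl hc'') ⟨h4, h7⟩
      · have := hpos i l hc'
        rw [← h3, e1] at this
        simp at this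
    · by_cases hc' : cl i = cl l
      · have := hpos i j hc
        rw [h3, hdisj i l hil hc'] at this
        simp at this
      · by_cases hc'' : cl j = cl l
        · have := hpos i l hc'
          rw [h5, hdisj j l hjl hc''] at this
          simp at this
        · exact hsun i j l hc hc' hc'' ⟨h3, h5⟩

/-- Adding private points. -/
lemma Good.pad {s s' N : ℕ} (h : Good s N) (hs : s ≤ s') : Good s' N := by
  obtain ⟨H, hH⟩ := h
  obtain ⟨d, rfl⟩ := Nat.exists_eq_add_of_le hs
  have key : GoodFam (s + d) (fun i : Fin N => (H i).disjSum ((univ : Finset (Fin d)).map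
      ⟨fun b => (i, b), fun _ _ h => (Prod.mk.inj h).2⟩)) := by
    set G : Fin N → Finset (Fin N × Fin d) := fun i => (univ : Finset (Fin d)).map
      ⟨fun b => (i, b), fun _ _ h => (Prod.mk.inj h).2⟩ with hG
    have Gdiff : ∀ i j, i ≠ j → G i ∩ G j = ∅ := by
      intro i j hij
      ext ⟨c, b⟩
      rw [mem_inter]
      refine ⟨fun h => ?_, fun h => by simp at h⟩
      obtain ⟨x, -, hx⟩ := mem_map.1 h.1
      obtain ⟨y, -, hy⟩ := mem_map.1 h.2
      exact absurd ((congrArg Prod.fst hx).trans (congrArg Prod.fst hy).symm) hij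
    have hint : ∀ i j, i ≠ j → (H i).disjSum (G i) ∩ (H j).disjSum (G j) =
        (H i ∩ H j).disjSum ∅ := fun i j hij => by rw [disjSum_inter, Gdiff i j hij]
    refine ⟨fun i => ?_, fun i j hij => ?_, fun i j hij => ?_, fun i j l hij hil hjl => ?_⟩
    · rw [card_disjSum, hH.card, card_map, card_univ, Fintype.card_fin]
    · rw [hint i j hij, disjSum_empty]
      exact (hH.pos i j hij).map
    · rw [hint i j hij, disjSum_empty, card_map]
      exact hH.le i j hij
    · rw [hint i j hij, hint i l hil, hint j l hjl, disjSum_empty, disjSum_empty, disjSum_empty,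
        map_inj, map_inj]
      exact hH.nosun i j l hij hil hjl
  exact Good.of_fam key (by simp)

/-- Two disjoint copies of a good family form an admissible family. -/
lemma Good.two {s N : ℕ} (h : Good s N) (hs : 3 ≤ s) :
    ∃ F : Finset (Finset ℕ), Adm s F ∧ F.card = 2 * N := by
  obtain ⟨H, hH⟩ := h
  -- copies in the even and in the odd numbers
  let e : Bool → ℕ ↪ ℕ := fun b => ⟨fun n => 2 * n + (if b then 1 else 0), fun x y hxy => by
    dsimp at hxy; omega⟩
  let K : Bool × Fin N → Finset ℕ := fun p => (H p.2).map (e p.1)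
  have hKcard : ∀ p, (K p).card = s := fun p => by simp only [K, card_map]; exact hH.card _
  have hsame : ∀ p q, p.1 = q.1 → K p ∩ K q = (H p.2 ∩ H q.2).map (e p.1) := by
    intro p q h
    simp only [K]
    rw [map_inter, h]
  have hdiff : ∀ p q, p.1 ≠ q.1 → K p ∩ K q = ∅ := by
    rintro ⟨b, i⟩ ⟨c, j⟩ h
    ext n
    simp only [K, e, mem_inter, mem_map, Function.Embedding.coeFn_mk, notMem_empty, iff_false,
      not_and, not_exists]
    rintro ⟨x, -, hx⟩ y _ hy
    cases b <;> cases c <;> simp at h hx hy <;> omega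
  have hle : ∀ p q, p ≠ q → (K p ∩ K q).card ≤ 2 := by
    intro p q hpq
    by_cases h : p.1 = q.1
    · rw [hsame p q h, card_map]
      exact hH.le _ _ (fun e => hpq (Prod.ext h e))
    · rw [hdiff p q h]; simp
  have hpos : ∀ p q, p ≠ q → p.1 = q.1 → (K p ∩ K q).Nonempty := by
    intro p q hpq h
    rw [hsame p q h]
    exact (hH.pos _ _ (fun e => hpq (Prod.ext h e))).map
  have hinj : Function.Injective K := by
    intro p q hpq
    by_contra hne
    have := hle p q hne
    rw [hpq, inter_self, hKcard] at this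
    omega
  have hsun : ∀ p q r, p ≠ q → p ≠ r → q ≠ r →
      ¬ (K p ∩ K q = K p ∩ K r ∧ K p ∩ K r = K q ∩ K r) := by
    rintro p q r hpq hpr hqr ⟨h1, h2⟩
    by_cases a : p.1 = q.1
    · by_cases b : p.1 = r.1
      · rw [hsame p q a, hsame p r b, map_inj] at h1
        rw [hsame p r b, hsame q r (a.symm.trans b), ← a, map_inj] at h2
        exact hH.nosun _ _ _ (fun e => hpq (Prod.ext a e)) (fun e => hpr (Prod.ext b e))
          (fun e => hqr (Prod.ext (a.symm.trans b) e)) ⟨h1, h2⟩
      · have := hpos p q hpq a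
        rw [h1, hdiff p r b] at this
        simp at this
    · by_cases b : p.1 = r.1
      · have := hpos p r hpr b
        rw [← h1, hdiff p q a] at this
        simp at this
      · have c : q.1 = r.1 := by
          revert a b; cases p.1 <;> cases q.1 <;> cases r.1 <;> simp
        have := hpos q r hqr c
        rw [← h2, hdiff p r b] at this
        simp at this
  refine ⟨univ.image K, ⟨?_, ?_, ?_⟩, ?_⟩
  · intro A hA
    obtain ⟨p, -, rfl⟩ := mem_image.1 hA
    exact hKcard p
  · intro A hA B hB hAB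
    obtain ⟨p, -, rfl⟩ := mem_image.1 hA
    obtain ⟨q, -, rfl⟩ := mem_image.1 hB
    exact hle p q (fun e => hAB (by rw [e]))
  · intro A hA B hB C hC hAB hAC hBC
    obtain ⟨p, -, rfl⟩ := mem_image.1 hA
    obtain ⟨q, -, rfl⟩ := mem_image.1 hB
    obtain ⟨r, -, rfl⟩ := mem_image.1 hC
    exact hsun p q r (fun e => hAB (by rw [e])) (fun e => hAC (by rw [e]))
      (fun e => hBC (by rw [e]))
  · rw [card_image_of_injective _ hinj]
    simp [mul_comm]

/-- A good family as a set family. -/
lemma Good.one {s N : ℕ} (h : Good s N) (hs : 3 ≤ s) :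
    ∃ F : Finset (Finset ℕ), Adm s F ∧ (∀ A ∈ F, ∀ B ∈ F, (A ∩ B).Nonempty) ∧ F.card = N := by
  obtain ⟨H, hH⟩ := h
  have hinj : Function.Injective H := by
    intro p q hpq
    by_contra hne
    have := hH.le p q hne
    rw [hpq, inter_self, hH.card] at this
    omega
  refine ⟨univ.image H, ⟨?_, ?_, ?_⟩, ?_, ?_⟩
  · intro A hA
    obtain ⟨p, -, rfl⟩ := mem_image.1 hA
    exact hH.card p
  · intro A hA B hB hAB
    obtain ⟨p, -, rfl⟩ := mem_image.1 hA
    obtain ⟨q, -, rfl⟩ := mem_image.1 hB
    exact hH.le p q (fun e => hAB (by rw [e]))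
  · intro A hA B hB C hC hAB hAC hBC
    obtain ⟨p, -, rfl⟩ := mem_image.1 hA
    obtain ⟨q, -, rfl⟩ := mem_image.1 hB
    obtain ⟨r, -, rfl⟩ := mem_image.1 hC
    exact hH.nosun p q r (fun e => hAB (by rw [e])) (fun e => hAC (by rw [e]))
      (fun e => hBC (by rw [e]))
  · intro A hA B hB
    obtain ⟨p, -, rfl⟩ := mem_image.1 hA
    obtain ⟨q, -, rfl⟩ := mem_image.1 hB
    by_cases hpq : p = q
    · rw [hpq, inter_self, ← card_pos, hH.card]
      omega
    · exact hH.pos p q hpq
  · rw [card_image_of_injective _ hinj, card_univ, Fintype.card_fin]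

/-- The base gadget: edges at the vertices of a complete graph. -/
lemma good_base (g : ℕ) : Good (g - 1) g := by
  have key : GoodFam (g - 1) (fun i : Fin g => ((univ : Finset (Fin g)).erase i).image
      (fun j => s(i, j))) := by
    have hinter : ∀ i j : Fin g, i ≠ j → ((univ : Finset (Fin g)).erase i).image
      (fun j => s(i, j)) ∩ ((univ : Finset (Fin g)).erase j).image (fun k => s(j, k)) =
        {s(i, j)} := by
      intro i j hij
      ext x
      simp only [mem_inter, mem_image, mem_erase, mem_univ, and_true, mem_singleton]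
      constructor
      · rintro ⟨⟨a, ha, rfl⟩, b, hb, h⟩
        rw [Sym2.eq_iff] at h
        rcases h with ⟨h1, h2⟩ | ⟨h1, h2⟩
        · exact absurd h1.symm hij
        · rw [h1]
      · rintro rfl
        exact ⟨⟨j, hij.symm, rfl⟩, ⟨i, hij, Sym2.eq_swap⟩⟩
    refine ⟨fun i => ?_, fun i j hij => ?_, fun i j hij => ?_, fun i j l hij hil hjl => ?_⟩
    · rw [card_image_of_injective]
      · rw [card_erase_of_mem (mem_univ i), card_univ, Fintype.card_fin]
      · intro a b hab
        simp only [Sym2.eq_iff] at hab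
        rcases hab with ⟨-, h⟩ | ⟨h1, h2⟩
        · exact h
        · exact h2.trans h1
    · rw [hinter i j hij]; simp
    · rw [hinter i j hij]; simp
    · rw [hinter i j hij, hinter i l hil, hinter j l hjl]
      rintro ⟨h1, -⟩
      rw [singleton_inj, Sym2.eq_iff] at h1
      rcases h1 with ⟨-, h⟩ | ⟨h, -⟩
      · exact hjl h
      · exact hil h
  exact Good.of_fam key (by simp)

end Pool.Agent.Work.MP_49280d_co
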