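import Pool.Agent.Work.MP_49280d_co.Defs

/-!
# The Gold family: `3 m ^ 2` blocks of size `2 m`, `m = 2 ^ n`, `n` odd
-/

set_option autoImplicit false

open Finset

namespace Pool.Agent.Work.MP_49280d_co

section Block

variable {F : Type} [Fintype F] [DecidableEq F]

/-- Graph of `f` in the copy `t` and graph of `g` in the copy `t + 1` of `F × F`. -/
def blk (t : ZMod 3) (f g : F → F) : Finset (ZMod 3 × F × F) :=
  univ.filter (fun p => (p.1 = t ∧ p.2.2 = f p.2.1) ∨ (p.1 = t + 1 ∧ p.2.2 = g p.2.1))

lemma mem_blk {t : ZMod 3} {f g : F → F} {s : ZMod 3} {x y : F} :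
    (s, x, y) ∈ blk t f g ↔ (s = t ∧ y = f x) ∨ (s = t + 1 ∧ y = g x) := by
  simp [blk]

lemma ne_add_one (t : ZMod 3) : t ≠ t + 1 := by revert t; decide

lemma add_two_ne (t : ZMod 3) : t + 1 + 1 ≠ t := by revert t; decide

lemma card_same (t : ZMod 3) (f g f' g' : F → F) :
    (blk t f g ∩ blk t f' g').card =
      (univ.filter (fun x => f x = f' x)).card + (univ.filter (fun x => g x = g' x)).card := by
  have h : blk t f g ∩ blk t f' g' =
      (univ.filter (fun x => f x = f' x)).image (fun x => (t, x, f x)) ∪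
      (univ.filter (fun x => g x = g' x)).image (fun x => (t + 1, x, g x)) := by
    ext ⟨s, x, y⟩
    simp only [mem_inter, mem_blk, mem_union, mem_image, mem_filter, mem_univ, true_and,
      Prod.mk.injEq]
    constructor
    · rintro ⟨⟨h1, h2⟩ | ⟨h1, h2⟩, ⟨h3, h4⟩ | ⟨h3, h4⟩⟩
      · exact Or.inl ⟨x, h2.symm.trans h4, h1.symm, rfl, h2.symm⟩
      · exact absurd (h1.symm.trans h3) (ne_add_one t)
      · exact absurd (h3.symm.trans h1) (ne_add_one t)
      · exact Or.inr ⟨x, h2.symm.trans h4, h1.symm, rfl, h2.symm⟩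
    · rintro (⟨z, hz, h1, h2, h3⟩ | ⟨z, hz, h1, h2, h3⟩)
      · subst h2
        exact ⟨Or.inl ⟨h1.symm, h3.symm⟩, Or.inl ⟨h1.symm, h3.symm.trans hz⟩⟩
      · subst h2
        exact ⟨Or.inr ⟨h1.symm, h3.symm⟩, Or.inr ⟨h1.symm, h3.symm.trans hz⟩⟩
  rw [h, card_union_of_disjoint, card_image_of_injective, card_image_of_injective]
  · intro a b hab
    exact (Prod.mk.inj (Prod.mk.inj hab).2).1
  · intro a b hab
    exact (Prod.mk.inj (Prod.mk.inj hab).2).1
  · rw [disjoint_left]
    intro p hp hp'
    obtain ⟨a, -, rfl⟩ := mem_image.1 hp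
    obtain ⟨b, -, hb⟩ := mem_image.1 hp'
    exact ne_add_one t (Prod.mk.inj hb).1.symm

lemma card_next (t : ZMod 3) (f g f' g' : F → F) :
    (blk t f g ∩ blk (t + 1) f' g').card = (univ.filter (fun x => g x = f' x)).card := by
  have h : blk t f g ∩ blk (t + 1) f' g' =
      (univ.filter (fun x => g x = f' x)).image (fun x => (t + 1, x, g x)) := by
    ext ⟨s, x, y⟩
    simp only [mem_inter, mem_blk, mem_image, mem_filter, mem_univ, true_and,
      Prod.mk.injEq]
    constructor
    · rintro ⟨⟨h1, h2⟩ | ⟨h1, h2⟩, ⟨h3, h4⟩ | ⟨h3, h4⟩⟩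
      · exact absurd (h1.symm.trans h3) (ne_add_one t)
      · exact absurd (h3.symm.trans h1) (add_two_ne t)
      · exact ⟨x, h2.symm.trans h4, h1.symm, rfl, h2.symm⟩
      · exact absurd (h1.symm.trans h3) (ne_add_one (t + 1))
    · rintro ⟨z, hz, h1, h2, h3⟩
      subst h2
      exact ⟨Or.inr ⟨h1.symm, h3.symm⟩, Or.inl ⟨h1.symm, h3.symm.trans hz⟩⟩
  rw [h, card_image_of_injective]
  intro a b hab
  exact (Prod.mk.inj (Prod.mk.inj hab).2).1

lemma zmod_cases (s t : ZMod 3) (h : s ≠ t) : t = s + 1 ∨ s = t + 1 := by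
  revert s t; decide

lemma zmod_three (s a b c : ZMod 3) (ha : s = a ∨ s = a + 1) (hb : s = b ∨ s = b + 1)
    (hc : s = c ∨ s = c + 1) : a = b ∨ a = c ∨ b = c := by
  revert s a b c; decide

end Block

section Field

variable {F : Type} [Field F] [Fintype F] [DecidableEq F] [CharP F 2]

/-- The biadditive form `z ^ 2 u + z u ^ 2`. -/
def L (u z : F) : F := z ^ 2 * u + z * u ^ 2

omit [Fintype F] [DecidableEq F] in
lemma L_add (u z z' : F) : L u (z + z') = L u z + L u z' := by
  have : (2 : F) = 0 := CharTwo.two_eq_zero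
  simp only [L]
  linear_combination (z * z' * u) * this

omit [Fintype F] [DecidableEq F] [CharP F 2] in
lemma L_symm (u z : F) : L u z = L z u := by
  simp only [L]; ring

omit [Fintype F] [DecidableEq F] in
lemma L_eq_zero {u : F} (hu : u ≠ 0) (z : F) : L u z = 0 ↔ z = 0 ∨ z = u := by
  have h : L u z = z * u * (z + u) := by simp only [L]; ring
  rw [h, mul_eq_zero, mul_eq_zero, CharTwo.add_eq_zero]
  tauto

omit [Fintype F] [DecidableEq F] in
lemma cube_add (z u : F) : (z + u) ^ 3 = z ^ 3 + L u z + u ^ 3 := by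
  have : (2 : F) = 0 := CharTwo.two_eq_zero
  simp only [L]
  linear_combination (z ^ 2 * u + z * u ^ 2) * this

omit [Fintype F] [DecidableEq F] in
lemma L_ne_cube (h3 : ∀ t : F, t ^ 2 + t + 1 ≠ 0) {u : F} (hu : u ≠ 0) (z : F) :
    L u z ≠ u ^ 3 := by
  intro h
  have h2 : (2 : F) = 0 := CharTwo.two_eq_zero
  apply h3 (z / u)
  field_simp
  have : u * (z ^ 2 + z * u + u ^ 2) = 0 := by
    simp only [L] at h
    linear_combination h + u ^ 3 * h2
  rcases mul_eq_zero.1 this with h | h
  · exact absurd h hu
  · linear_combination h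

omit [Fintype F] [DecidableEq F] in
lemma cube_inj (h3 : ∀ t : F, t ^ 2 + t + 1 ≠ 0) : Function.Injective (fun x : F => x ^ 3) := by
  intro x y hxy
  dsimp at hxy
  by_contra hne
  have hu : x + y ≠ 0 := fun h => hne (CharTwo.add_eq_zero.1 h)
  have h2 : (2 : F) = 0 := CharTwo.two_eq_zero
  apply L_ne_cube h3 hu y
  have := cube_add y (x + y)
  have h4 : y + (x + y) = x := by linear_combination y * h2
  rw [h4, hxy] at this
  linear_combination (-1 : F) * this + (-(x + y) ^ 3) * h2

/-- `L u` as an additive homomorphism. -/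
def Lhom (u : F) : F →+ F where
  toFun := L u
  map_zero' := by simp [L]
  map_add' := L_add u

omit [Fintype F] [DecidableEq F] in
@[simp] lemma Lhom_apply (u z : F) : Lhom u z = L u z := rfl

omit [DecidableEq F] in
lemma index_range {u : F} (hu : u ≠ 0) : (Lhom u).range.index = 2 := by
  have hker : Nat.card (Lhom u).ker = 2 := by
    have : ((Lhom u).ker : Set F) = {0, u} := by
      ext z
      simp only [SetLike.mem_coe, AddMonoidHom.mem_ker, Lhom_apply, L_eq_zero hu,
        Set.mem_insert_iff, Set.mem_singleton_iff]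
    have h2 : Nat.card (Lhom u).ker = ((Lhom u).ker : Set F).ncard := rfl
    rw [h2, this, Set.ncard_pair hu.symm]
  have h1 := AddSubgroup.card_mul_index (Lhom u).ker
  have h2 := AddSubgroup.card_mul_index (Lhom u).range
  have h3 : (Lhom u).ker.index = Nat.card (Lhom u).range := AddSubgroup.index_ker (Lhom u)
  rw [h3, hker] at h1
  have hpos : 0 < Nat.card (Lhom u).range := Nat.card_pos
  have : Nat.card (Lhom u).range * (Lhom u).range.index = Nat.card (Lhom u).range * 2 := by
    rw [h2, ← h1, mul_comm]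
  exact Nat.eq_of_mul_eq_mul_left hpos this

omit [DecidableEq F] in
lemma mem_or (h3 : ∀ t : F, t ^ 2 + t + 1 ≠ 0) {u : F} (hu : u ≠ 0) (w : F) :
    (∃ z, L u z = w + u ^ 3) ↔ ¬ ∃ z, L u z = w := by
  have h := AddSubgroup.add_mem_iff_of_index_two (index_range hu) (a := w) (b := u ^ 3)
  have h5 : u ^ 3 ∉ (Lhom u).range := by
    rintro ⟨z, hz⟩
    exact L_ne_cube h3 hu z hz
  have e1 : w + u ^ 3 ∈ (Lhom u).range ↔ ∃ z, L u z = w + u ^ 3 := AddMonoidHom.mem_range
  have e2 : w ∈ (Lhom u).range ↔ ∃ z, L u z = w := AddMonoidHom.mem_range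
  rw [← e1, ← e2, h]
  tauto

lemma card_L_eq {u : F} (hu : u ≠ 0) (w : F) [Decidable (∃ z, L u z = w)] :
    (univ.filter (fun z => L u z = w)).card = if ∃ z, L u z = w then 2 else 0 := by
  split_ifs with h
  · obtain ⟨z, rfl⟩ := h
    have : univ.filter (fun x => L u x = L u z) = {z, z + u} := by
      ext x
      simp only [mem_filter, mem_univ, true_and, mem_insert, mem_singleton]
      have h1 : L u (x + z) = L u x + L u z := L_add u x z
      have h2 : L u x = L u z ↔ L u (x + z) = 0 := by
        rw [h1, CharTwo.add_eq_zero]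
      rw [h2, L_eq_zero hu, CharTwo.add_eq_zero]
      constructor
      · rintro (h | h)
        · exact Or.inl h
        · right
          rw [← h]
          have h2 : (2 : F) = 0 := CharTwo.two_eq_zero
          linear_combination (-z) * h2
      · rintro (h | h)
        · exact Or.inl h
        · right
          rw [h]
          have h2 : (2 : F) = 0 := CharTwo.two_eq_zero
          linear_combination z * h2
    rw [this, card_pair]
    intro e
    apply hu
    linear_combination -e
  · rw [card_eq_zero, filter_eq_empty_iff]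
    intro z _ hz
    exact h ⟨z, hz⟩

/-- The blocks. -/
def gold (i : ZMod 3 × F × F) : Finset (ZMod 3 × F × F) :=
  blk i.1 (fun x => (x + i.2.1) ^ 3 + i.2.2) (fun x => L i.2.1 x + i.2.2)

omit [CharP F 2] in
lemma gold_card (i : ZMod 3 × F × F) : (gold i).card = 2 * Fintype.card F := by
  have h := card_same i.1 (fun x => (x + i.2.1) ^ 3 + i.2.2) (fun x => L i.2.1 x + i.2.2)
    (fun x => (x + i.2.1) ^ 3 + i.2.2) (fun x => L i.2.1 x + i.2.2)
  rw [inter_self] at h
  rw [gold, h]
  simp [two_mul]

lemma card_A {e e' c c' : F} (he : e ≠ e') [Decidable (∃ z, L (e + e') z = c + c' + (e + e') ^ 3)] :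
    (univ.filter (fun x : F => (x + e) ^ 3 + c = (x + e') ^ 3 + c')).card =
      if ∃ z, L (e + e') z = c + c' + (e + e') ^ 3 then 2 else 0 := by
  have h2 : (2 : F) = 0 := CharTwo.two_eq_zero
  have hu : e + e' ≠ 0 := fun h => he (CharTwo.add_eq_zero.1 h)
  rw [← card_L_eq hu]
  apply card_bij (fun x _ => x + e)
  · intro x hx
    simp only [mem_filter, mem_univ, true_and] at hx ⊢
    have h4 := cube_add (x + e) (e + e')
    have h5 : x + e + (e + e') = x + e' := by linear_combination e * h2
    rw [h5] at h4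
    linear_combination -hx - h4 - (c' + (e + e') ^ 3) * h2
  · intro x _ y _ h
    exact add_right_cancel h
  · intro z hz
    simp only [mem_filter, mem_univ, true_and] at hz
    refine ⟨z + e, ?_, ?_⟩
    · simp only [mem_filter, mem_univ, true_and]
      have h4 := cube_add z (e + e')
      have h5 : z + e + e = z := by linear_combination e * h2
      have h6 : z + e + e' = z + (e + e') := by ring
      rw [h5, h6, h4, hz]
      linear_combination (-(c' + (e + e') ^ 3)) * h2
    · linear_combination e * h2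

lemma card_U {e e' c c' : F} (he : e ≠ e') [Decidable (∃ z, L (e + e') z = c + c')] :
    (univ.filter (fun x : F => L e x + c = L e' x + c')).card =
      if ∃ z, L (e + e') z = c + c' then 2 else 0 := by
  have h2 : (2 : F) = 0 := CharTwo.two_eq_zero
  have hu : e + e' ≠ 0 := fun h => he (CharTwo.add_eq_zero.1 h)
  rw [← card_L_eq hu]
  congr 1
  apply filter_congr
  intro x _
  have h4 : L (e + e') x = L e x + L e' x := by
    rw [L_symm, L_add, L_symm x, L_symm x]
  rw [h4]
  constructor
  · intro h
    linear_combination h + (L e' x - c) * h2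
  · intro h
    linear_combination h + (c - L e' x) * h2

lemma card_cross (h3 : ∀ t : F, t ^ 2 + t + 1 ≠ 0) (e e' c c' : F) :
    (univ.filter (fun x : F => L e x + c = (x + e') ^ 3 + c')).card = 1 := by
  have h2 : (2 : F) = 0 := CharTwo.two_eq_zero
  have hinj := cube_inj h3
  have hbij : Function.Bijective (fun x : F => (x + (e + e')) ^ 3) := by
    have : Function.Injective (fun x : F => (x + (e + e')) ^ 3) := by
      intro x y h
      exact add_right_cancel (hinj h)
    exact Finite.injective_iff_bijective.1 this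
  obtain ⟨x₀, hx₀, huniq⟩ := hbij.existsUnique (c + c' + e' ^ 3 + (e + e') ^ 3)
  rw [card_eq_one]
  refine ⟨x₀, ?_⟩
  have key : ∀ x : F, (L e x + c = (x + e') ^ 3 + c') ↔
      (x + (e + e')) ^ 3 = c + c' + e' ^ 3 + (e + e') ^ 3 := by
    intro x
    have h4 := cube_add x (e + e')
    have h5 := cube_add x e'
    have h6 : L (e + e') x = L e x + L e' x := by
      rw [L_symm, L_add, L_symm x, L_symm x]
    rw [h4, h5, h6]
    constructor
    · intro h
      linear_combination h + (x ^ 3 + L e' x - c) * h2
    · intro h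
      linear_combination h - (x ^ 3 + L e' x - c) * h2
  ext x
  simp only [mem_filter, mem_univ, true_and, mem_singleton, key]
  constructor
  · intro h; exact huniq x h
  · rintro rfl; exact hx₀

lemma gold_inter_same (h3 : ∀ t : F, t ^ 2 + t + 1 ≠ 0) (t : ZMod 3) {e e' c c' : F}
    (he : e ≠ e') : (gold (t, e, c) ∩ gold (t, e', c')).card = 2 := by
  classical
  simp only [gold]
  rw [card_same, card_A he, card_U he]
  have hu : e + e' ≠ 0 := fun h => he (CharTwo.add_eq_zero.1 h)
  have := mem_or h3 hu (c + c')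
  by_cases h : ∃ z, L (e + e') z = c + c'
  · rw [if_pos h, if_neg (fun h' => this.1 h' h)]
  · rw [if_neg h, if_pos (this.2 h)]

lemma gold_inter_next (h3 : ∀ t : F, t ^ 2 + t + 1 ≠ 0) (t : ZMod 3) (e e' c c' : F) :
    (gold (t, e, c) ∩ gold (t + 1, e', c')).card = 1 := by
  simp only [gold]
  rw [card_next, card_cross h3]

lemma gold_inter_diff (h3 : ∀ t : F, t ^ 2 + t + 1 ≠ 0) (i j : ZMod 3 × F × F)
    (h : i.1 ≠ j.1) : (gold i ∩ gold j).card = 1 := by
  obtain ⟨s, e, c⟩ := i
  obtain ⟨t, e', c'⟩ := j
  rcases zmod_cases s t h with rfl | rfl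
  · exact gold_inter_next h3 _ _ _ _ _
  · rw [inter_comm]; exact gold_inter_next h3 _ _ _ _ _

omit [Fintype F] [DecidableEq F] in
/-- Two points lie in at most two blocks of the same type (with different `e`). -/
lemma three_e {δ a b c : F} (hδ : δ ≠ 0) (hab : a ≠ b) (hac : a ≠ c) (hbc : b ≠ c)
    (h1 : L δ a = L δ b) (h2 : L δ a = L δ c) : False := by
  have k1 : L δ (a + b) = 0 := by rw [L_add, h1]; exact CharTwo.add_self_eq_zero _
  have k2 : L δ (a + c) = 0 := by rw [L_add, h2]; exact CharTwo.add_self_eq_zero _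
  rcases (L_eq_zero hδ _).1 k1 with h | h
  · exact hab (CharTwo.add_eq_zero.1 h)
  · rcases (L_eq_zero hδ _).1 k2 with h' | h'
    · exact hac (CharTwo.add_eq_zero.1 h')
    · exact hbc (add_left_cancel (h.trans h'.symm))

lemma gold_nosun (h3 : ∀ t : F, t ^ 2 + t + 1 ≠ 0) (i j l : ZMod 3 × F × F)
    (hij : (i.1, i.2.1) ≠ (j.1, j.2.1)) (hil : (i.1, i.2.1) ≠ (l.1, l.2.1))
    (hjl : (j.1, j.2.1) ≠ (l.1, l.2.1)) :
    ¬ (gold i ∩ gold j = gold i ∩ gold l ∧ gold i ∩ gold l = gold j ∩ gold l) := by
  rintro ⟨h1, h2⟩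
  have h2' : (2 : F) = 0 := CharTwo.two_eq_zero
  obtain ⟨t, e, c⟩ := i
  obtain ⟨t', e', c'⟩ := j
  obtain ⟨t'', e'', c''⟩ := l
  have same : ∀ (s : ZMod 3) (a b x y : F), (s, a) ≠ (s, b) →
      (gold (s, a, x) ∩ gold (s, b, y)).card = 2 := fun s a b x y h =>
    gold_inter_same h3 s (fun e => h (by rw [e]))
  by_cases a : t = t'
  · subst a
    by_cases b : t = t''
    · subst b
      -- all three of the same type
      have he : e ≠ e' := fun h => hij (by simp [h])
      have he' : e ≠ e'' := fun h => hil (by simp [h])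
      have he'' : e' ≠ e'' := fun h => hjl (by simp [h])
      have hc := gold_inter_same h3 t (c := c) (c' := c') he
      obtain ⟨p, q, hpq, hS⟩ := card_eq_two.1 hc
      have hp : p ∈ gold (t, e, c) ∩ gold (t, e', c') := by rw [hS]; simp
      have hq : q ∈ gold (t, e, c) ∩ gold (t, e', c') := by rw [hS]; simp
      have hp' : p ∈ gold (t, e'', c'') := by rw [h1] at hp; exact (mem_inter.1 hp).2
      have hq' : q ∈ gold (t, e'', c'') := by rw [h1] at hq; exact (mem_inter.1 hq).2
      obtain ⟨hp1, hp2⟩ := mem_inter.1 hp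
      obtain ⟨hq1, hq2⟩ := mem_inter.1 hq
      -- number of common points of the two parts
      classical
      have cA := card_A (c := c) (c' := c') he
      have cU := card_U (c := c) (c' := c') he
      have hor := mem_or h3 (fun h => he (CharTwo.add_eq_zero.1 h)) (c + c')
      obtain ⟨s, x, y⟩ := p
      obtain ⟨s', x', y'⟩ := q
      simp only [gold, mem_blk] at hp1 hp2 hp' hq1 hq2 hq'
      rcases hp1 with ⟨rfl, a1⟩ | ⟨rfl, a1⟩
      · -- `p` in the `A`-part
        have a2 := hp2.resolve_right (fun h => ne_add_one _ h.1)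
        have a3 := hp'.resolve_right (fun h => ne_add_one _ h.1)
        have hA : ∃ z, L (e + e') z = c + c' + (e + e') ^ 3 := by
          by_contra hA
          rw [if_neg hA, card_eq_zero, filter_eq_empty_iff] at cA
          exact cA (mem_univ x) (a1.symm.trans a2.2)
        have hU := hor.1 hA
        rw [if_neg hU, card_eq_zero, filter_eq_empty_iff] at cU
        rcases hq1 with ⟨rfl, b1⟩ | ⟨rfl, b1⟩
        · have b2 := hq2.resolve_right (fun h => ne_add_one _ h.1)
          have b3 := hq'.resolve_right (fun h => ne_add_one _ h.1)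
          have hx : x ≠ x' := by
            rintro rfl
            exact hpq (by rw [a1, b1])
          have hδ : x + x' ≠ 0 := fun h => hx (CharTwo.add_eq_zero.1 h)
          have key : ∀ d k : F, y = (x + d) ^ 3 + k → y' = (x' + d) ^ 3 + k →
              L (x + x') d = y + y' + (x + x') ^ 3 + L (x + x') x := by
            intro d k r1 r2
            have h4 := cube_add (x + d) (x + x')
            have h5 : x + d + (x + x') = x' + d := by linear_combination x * h2'
            rw [h5] at h4
            have h6 := L_add (x + x') x d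
            linear_combination -h6 - h4 - r1 - r2 -
              ((x + x') ^ 3 + L (x + x') x + (x + d) ^ 3 + k) * h2'
          have k1 := key e c a1 b1
          have k2 := key e' c' a2.2 b2.2
          have k3 := key e'' c'' a3.2 b3.2
          exact three_e hδ he he' he'' (k1.trans k2.symm) (k1.trans k3.symm)
        · have b2 := hq2.resolve_left (fun h => ne_add_one _ h.1.symm)
          exact cU (mem_univ x') (b1.symm.trans b2.2)
      · -- `p` in the `U`-part
        have a2 := hp2.resolve_left (fun h => ne_add_one _ h.1.symm)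
        have a3 := hp'.resolve_left (fun h => ne_add_one _ h.1.symm)
        have hU : ∃ z, L (e + e') z = c + c' := by
          by_contra hU
          rw [if_neg hU, card_eq_zero, filter_eq_empty_iff] at cU
          exact cU (mem_univ x) (a1.symm.trans a2.2)
        have hA : ¬ ∃ z, L (e + e') z = c + c' + (e + e') ^ 3 := fun h => hor.1 h hU
        rw [if_neg hA, card_eq_zero, filter_eq_empty_iff] at cA
        rcases hq1 with ⟨rfl, b1⟩ | ⟨rfl, b1⟩
        · have b2 := hq2.resolve_right (fun h => ne_add_one _ h.1)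
          exact cA (mem_univ x') (b1.symm.trans b2.2)
        · have b2 := hq2.resolve_left (fun h => ne_add_one _ h.1.symm)
          have b3 := hq'.resolve_left (fun h => ne_add_one _ h.1.symm)
          have hx : x ≠ x' := by
            rintro rfl
            exact hpq (by rw [a1, b1])
          have hδ : x + x' ≠ 0 := fun h => hx (CharTwo.add_eq_zero.1 h)
          have key : ∀ d k : F, y = L d x + k → y' = L d x' + k →
              L (x + x') d = y + y' := by
            intro d k r1 r2
            rw [L_symm, L_add]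
            linear_combination -r1 - r2 - k * h2'
          have k1 := key e c a1 b1
          have k2 := key e' c' a2.2 b2.2
          have k3 := key e'' c'' a3.2 b3.2
          exact three_e hδ he he' he'' (k1.trans k2.symm) (k1.trans k3.symm)
    · have e1 := same t e e' c c' hij
      have e2 := gold_inter_diff h3 (t, e, c) (t'', e'', c'') b
      rw [h1, e2] at e1
      exact absurd e1 (by norm_num)
  · by_cases b : t = t''
    · subst b
      have e1 := same t e e'' c c'' hil
      have e2 := gold_inter_diff h3 (t, e, c) (t', e', c') a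
      rw [← h1, e2] at e1
      exact absurd e1 (by norm_num)
    · by_cases d : t' = t''
      · subst d
        have e1 := same t' e' e'' c' c'' hjl
        have e2 := gold_inter_diff h3 (t, e, c) (t', e'', c'') b
        rw [← h2, e2] at e1
        exact absurd e1 (by norm_num)
      · have e1 := gold_inter_diff h3 (t, e, c) (t', e', c') a
        obtain ⟨⟨s, x, y⟩, hS⟩ := card_eq_one.1 e1
        have hp : (s, x, y) ∈ gold (t, e, c) ∩ gold (t', e', c') := by rw [hS]; simp
        have hp' : (s, x, y) ∈ gold (t'', e'', c'') := by rw [h1] at hp; exact (mem_inter.1 hp).2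
        obtain ⟨hp1, hp2⟩ := mem_inter.1 hp
        simp only [gold, mem_blk] at hp1 hp2 hp'
        have := zmod_three s t t' t'' (hp1.imp And.left And.left) (hp2.imp And.left And.left)
          (hp'.imp And.left And.left)
        tauto

/-- **Gold family.** -/
theorem good_gold (h3 : ∀ t : F, t ^ 2 + t + 1 ≠ 0) {s : ℕ} (hs : Good s (Fintype.card F)) :
    Good (2 * Fintype.card F + s) (3 * Fintype.card F ^ 2) := by
  obtain ⟨H, hH⟩ := hs.to_fam F le_rfl
  have key := repair (B := (gold : ZMod 3 × F × F → _)) (cl := fun i => (i.1, i.2.1))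
    (r := fun i => i.2.2) (k := 2 * Fintype.card F) hH ?_ gold_card ?_ ?_ ?_
    (fun i j l hij hil hjl => gold_nosun h3 i j l hij hil hjl)
  · exact Good.of_fam key (by
      simp only [Fintype.card_prod, ZMod.card]
      rw [sq])
  · rintro ⟨t, e, c⟩ ⟨t', e', c'⟩ h1 h2
    simp only [Prod.mk.injEq] at h1 h2 ⊢
    exact ⟨h1.1, h1.2, h2⟩
  · rintro ⟨t, e, c⟩ ⟨t', e', c'⟩ h1 h2
    simp only [Prod.mk.injEq] at h2
    obtain ⟨rfl, rfl⟩ := h2
    have hc : c ≠ c' := fun h => h1 (by rw [h])
    rw [← card_eq_zero]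
    simp only [gold]
    rw [card_same]
    simp [hc]
  · rintro ⟨t, e, c⟩ ⟨t', e', c'⟩ h1
    rw [← card_pos]
    by_cases h : t = t'
    · subst h
      rw [gold_inter_same h3 t (fun h => h1 (by simp [h]))]
      norm_num
    · rw [gold_inter_diff h3 _ _ h]
      norm_num
  · rintro ⟨t, e, c⟩ ⟨t', e', c'⟩ h1
    by_cases h : t = t'
    · subst h
      rw [gold_inter_same h3 t (fun h => h1 (by simp [h]))]
    · rw [gold_inter_diff h3 _ _ h]
      norm_num

end Field

/-- For `n` odd and `m = 2 ^ n`: a good family of `3 m ^ 2` sets of size `2 m + s` from a good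
family of `m` sets of size `s`. -/
theorem good_two_pow {n s : ℕ} (hn : Odd n) (hs : Good s (2 ^ n)) :
    Good (2 * 2 ^ n + s) (3 * (2 ^ n) ^ 2) := by
  classical
  have hn0 : n ≠ 0 := by rintro rfl; exact absurd hn (by decide)
  have : Fact (Nat.Prime 2) := ⟨Nat.prime_two⟩
  let _ : Fintype (GaloisField 2 n) := Fintype.ofFinite _
  have hcard : Fintype.card (GaloisField 2 n) = 2 ^ n := by
    rw [← Nat.card_eq_fintype_card]; exact GaloisField.card 2 n hn0
  rw [← hcard] at hs ⊢
  refine good_gold (F := GaloisField 2 n) ?_ hs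
  intro t ht
  have h2 : (2 : GaloisField 2 n) = 0 := CharTwo.two_eq_zero
  have ht3 : t ^ 3 = 1 := by linear_combination (t - 1) * ht
  have ht0 : t ≠ 0 := by rintro rfl; simp at ht
  have ht1 : t ≠ 1 := by
    rintro rfl
    have : (1 : GaloisField 2 n) = 0 := by linear_combination ht - h2
    exact one_ne_zero this
  have ho : orderOf t = 3 := orderOf_eq_prime ht3 ht1
  have hd : orderOf t ∣ Fintype.card (GaloisField 2 n) - 1 := by
    apply orderOf_dvd_of_pow_eq_one
    exact FiniteField.pow_card_sub_one_eq_one t ht0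
  rw [ho, hcard] at hd
  obtain ⟨k, rfl⟩ := hn
  have h4 : 2 ^ (2 * k + 1) % 3 = 2 := by
    rw [pow_succ, pow_mul, Nat.mul_mod, Nat.pow_mod]
    norm_num
  have h5 : 1 ≤ 2 ^ (2 * k + 1) := Nat.one_le_two_pow
  generalize 2 ^ (2 * k + 1) = x at hd h4 h5
  omega

end Pool.Agent.Work.MP_49280d_co
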