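import Pool.Agent.Work.MP_49280d_co.Defs

/-!
# The number of members meeting a given member, and the boundedness of `M_3(l, 2)`
-/

set_option autoImplicit false

open Finset

namespace Pool.Agent.Work.MP_49280d_co

lemma Adm.subset {l : ℕ} {F G : Finset (Finset ℕ)} (h : Adm l F) (hG : G ⊆ F) : Adm l G :=
  ⟨fun A hA => h.1 A (hG hA), fun A hA B hB => h.2.1 A (hG hA) B (hG hB),
    fun A hA B hB C hC => h.2.2 A (hG hA) B (hG hB) C (hG hC)⟩

/-- `C ↦ A ∩ C` is injective on the members meeting `A` in two points. -/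
lemma Adm.inj_two {l : ℕ} {F : Finset (Finset ℕ)} (h : Adm l F) {A B C : Finset ℕ} (hA : A ∈ F)
    (hB : B ∈ F) (hC : C ∈ F) (hBA : B ≠ A) (hCA : C ≠ A) (h2 : (A ∩ B).card = 2)
    (heq : A ∩ B = A ∩ C) : B = C := by
  by_contra hne
  refine h.2.2 A hA B hB C hC hBA.symm hCA.symm hne ⟨heq, ?_⟩
  rw [← heq]
  apply eq_of_subset_of_card_le
  · intro x hx
    exact mem_inter.2 ⟨(mem_inter.1 hx).2, by rw [heq] at hx; exact (mem_inter.1 hx).2⟩
  · rw [h2]
    exact h.2.1 B hB C hC hne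

/-- For `x ∈ A` at most `l - 1` members other than `A` meet `A` in two points including `x`. -/
lemma Adm.card_two_at {l : ℕ} {F : Finset (Finset ℕ)} (h : Adm l F) {A : Finset ℕ} (hA : A ∈ F)
    {x : ℕ} (hx : x ∈ A) :
    (F.filter (fun B => B ≠ A ∧ x ∈ B ∧ (A ∩ B).card = 2)).card ≤ l - 1 := by
  have hc : ((A.erase x).powersetCard 1).card = l - 1 := by
    rw [card_powersetCard, card_erase_of_mem hx, h.1 A hA, Nat.choose_one_right]
  rw [← hc]
  apply card_le_card_of_injOn (fun B => (A ∩ B).erase x)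
  · intro B hB
    simp only [coe_filter, Set.mem_ofPred_eq] at hB
    rw [mem_coe, mem_powersetCard]
    refine ⟨erase_subset_erase _ inter_subset_left, ?_⟩
    rw [card_erase_of_mem (mem_inter.2 ⟨hx, hB.2.2.1⟩), hB.2.2.2]
  · intro B hB C hC hBC
    simp only [coe_filter, Set.mem_ofPred_eq] at hB hC
    dsimp at hBC
    apply h.inj_two hA hB.1 hC.1 hB.2.1 hC.2.1 hB.2.2.2
    rw [← insert_erase (mem_inter.2 ⟨hx, hB.2.2.1⟩), hBC,
      insert_erase (mem_inter.2 ⟨hx, hC.2.2.1⟩)]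

/-- The members meeting `A` exactly in `{x}`: at most `l`. -/
lemma Adm.card_one_at {l : ℕ} {F : Finset (Finset ℕ)} (h : Adm l F) {A : Finset ℕ} (hA : A ∈ F)
    {x : ℕ} (hx : x ∈ A) :
    (F.filter (fun B => A ∩ B = {x} ∧ B ≠ A)).card ≤ l := by
  have hl : 1 ≤ l := by rw [← h.1 A hA]; exact card_pos.2 ⟨x, hx⟩
  rcases (F.filter (fun B => A ∩ B = {x} ∧ B ≠ A)).eq_empty_or_nonempty with h0 | ⟨B, hB⟩
  · rw [h0]; simp
  rw [← card_erase_add_one hB]
  have hB' := mem_filter.1 hB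
  have hxB : x ∈ B := by
    have : x ∈ A ∩ B := by rw [hB'.2.1]; simp
    exact (mem_inter.1 this).2
  have : ((F.filter (fun B => A ∩ B = {x} ∧ B ≠ A)).erase B).card ≤ l - 1 := by
    refine (card_le_card ?_).trans (h.card_two_at hB'.1 hxB)
    intro C hC
    obtain ⟨hCB, hC⟩ := mem_erase.1 hC
    have hC' := mem_filter.1 hC
    have hxC : x ∈ C := by
      have : x ∈ A ∩ C := by rw [hC'.2.1]; simp
      exact (mem_inter.1 this).2
    refine mem_filter.2 ⟨hC'.1, hCB, hxC, ?_⟩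
    have h1 : (B ∩ C).card ≤ 2 := h.2.1 B hB'.1 C hC'.1 hCB.symm
    have h2 : 1 ≤ (B ∩ C).card := card_pos.2 ⟨x, mem_inter.2 ⟨hxB, hxC⟩⟩
    by_contra hne
    have h3 : (B ∩ C).card = 1 := by omega
    obtain ⟨y, hy⟩ := card_eq_one.1 h3
    have hxy : x = y := by
      have : x ∈ B ∩ C := mem_inter.2 ⟨hxB, hxC⟩
      rw [hy] at this
      exact mem_singleton.1 this
    refine h.2.2 A hA B hB'.1 C hC'.1 hB'.2.2.symm hC'.2.2.symm hCB.symm ⟨?_, ?_⟩
    · rw [hB'.2.1, hC'.2.1]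
    · rw [hC'.2.1, hy, hxy]
  omega

/-- At most `l ^ 2 + l (l - 1) / 2` members meet a given member. -/
lemma Adm.card_nbr {l : ℕ} {F : Finset (Finset ℕ)} (h : Adm l F) {A : Finset ℕ} (hA : A ∈ F) :
    (F.filter (fun B => B ≠ A ∧ (A ∩ B).Nonempty)).card ≤ l ^ 2 + l.choose 2 := by
  have hsub : F.filter (fun B => B ≠ A ∧ (A ∩ B).Nonempty) ⊆
      (A.biUnion (fun x => F.filter (fun B => A ∩ B = {x} ∧ B ≠ A))) ∪
      F.filter (fun B => B ≠ A ∧ (A ∩ B).card = 2) := by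
    intro B hB
    obtain ⟨hB, hBA, hne⟩ := mem_filter.1 hB
    have h1 := h.2.1 A hA B hB hBA.symm
    have h2 := card_pos.2 hne
    rw [mem_union]
    by_cases hc : (A ∩ B).card = 2
    · exact Or.inr (mem_filter.2 ⟨hB, hBA, hc⟩)
    · left
      obtain ⟨y, hy⟩ := card_eq_one.1 (show (A ∩ B).card = 1 by omega)
      have hyA : y ∈ A := by
        have : y ∈ A ∩ B := by rw [hy]; simp
        exact (mem_inter.1 this).1
      exact mem_biUnion.2 ⟨y, hyA, mem_filter.2 ⟨hB, hy, hBA⟩⟩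
  refine (card_le_card hsub).trans ((card_union_le _ _).trans (Nat.add_le_add ?_ ?_))
  · refine card_biUnion_le.trans ((sum_le_card_nsmul _ _ l fun x hx => h.card_one_at hA hx).trans ?_)
    rw [h.1 A hA, smul_eq_mul, sq]
  · rw [← h.1 A hA, ← card_powersetCard]
    apply card_le_card_of_injOn (fun B => A ∩ B)
    · intro B hB
      simp only [coe_filter, Set.mem_ofPred_eq] at hB
      rw [mem_coe, mem_powersetCard]
      exact ⟨inter_subset_left, hB.2.2⟩
    · intro B hB C hC hBC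
      simp only [coe_filter, Set.mem_ofPred_eq] at hB hC
      exact h.inj_two hA hB.1 hC.1 hB.2.1 hC.2.1 hB.2.2 hBC

/-- The crude bound on admissible families. -/
lemma Adm.card_le {l : ℕ} {F : Finset (Finset ℕ)} (h : Adm l F) :
    F.card ≤ 2 * (l ^ 2 + l.choose 2 + 1) := by
  rcases F.eq_empty_or_nonempty with h0 | ⟨A, hA⟩
  · rw [h0]; simp
  have key : ∀ A ∈ F, (F.filter (fun B => B = A ∨ (A ∩ B).Nonempty)).card ≤
      l ^ 2 + l.choose 2 + 1 := by
    intro A hA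
    have : F.filter (fun B => B = A ∨ (A ∩ B).Nonempty) ⊆
        insert A (F.filter (fun B => B ≠ A ∧ (A ∩ B).Nonempty)) := by
      intro B hB
      obtain ⟨hB, hB'⟩ := mem_filter.1 hB
      by_cases hBA : B = A
      · rw [hBA]; exact mem_insert_self _ _
      · exact mem_insert_of_mem (mem_filter.2 ⟨hB, hBA, hB'.resolve_left hBA⟩)
    exact (card_le_card this).trans ((card_insert_le _ _).trans
      (Nat.add_le_add_right (h.card_nbr hA) 1))
  by_cases hall : ∀ B ∈ F, B = A ∨ (A ∩ B).Nonempty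
  · have := key A hA
    rw [filter_true_of_mem hall] at this
    omega
  · push Not at hall
    obtain ⟨B, hB, hBA, hd⟩ := hall
    have hcov : F ⊆ F.filter (fun C => C = A ∨ (A ∩ C).Nonempty) ∪
        F.filter (fun C => C = B ∨ (B ∩ C).Nonempty) := by
      intro C hC
      by_contra hn
      simp only [mem_union, mem_filter, hC, true_and, not_or, not_nonempty_iff_eq_empty] at hn
      obtain ⟨⟨h1, h2⟩, h3, h4⟩ := hn
      exact h.2.2 A hA B hB C hC (Ne.symm hBA) (Ne.symm h1) (Ne.symm h3)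
        ⟨by rw [hd, h2], by rw [h2, h4]⟩
    have := (card_le_card hcov).trans (card_union_le _ _)
    have h1 := key A hA
    have h2 := key B hB
    omega

lemma bddAbove_M3 (l : ℕ) :
    BddAbove {N | ∃ F : Finset (Finset ℕ), Adm l F ∧ F.card = N} := by
  refine ⟨2 * (l ^ 2 + l.choose 2 + 1), ?_⟩
  rintro N ⟨F, hF, rfl⟩
  exact hF.card_le

lemma Adm.le_M3 {l : ℕ} {F : Finset (Finset ℕ)} (h : Adm l F) : F.card ≤ M3 l :=
  le_csSup (bddAbove_M3 l) ⟨F, h, rfl⟩

lemma exists_M3 (l : ℕ) : ∃ F : Finset (Finset ℕ), Adm l F ∧ F.card = M3 l := by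
  have hne : {N | ∃ F : Finset (Finset ℕ), Adm l F ∧ F.card = N}.Nonempty :=
    ⟨0, ∅, ⟨by simp, by simp, by simp⟩, by simp⟩
  exact Nat.sSup_mem hne (bddAbove_M3 l)

lemma Good.le_M3 {s N : ℕ} (h : Good s N) (hs : 3 ≤ s) : 2 * N ≤ M3 s := by
  obtain ⟨F, hF, hc⟩ := h.two hs
  rw [← hc]
  exact hF.le_M3

lemma M3_le {l : ℕ} (hl : 1 ≤ l) : M3 l ≤ 5 * l ^ 2 := by
  obtain ⟨F, hF, hc⟩ := exists_M3 l
  rw [← hc]
  have h1 := hF.card_le
  have h2 : l.choose 2 = l * (l - 1) / 2 := Nat.choose_two_right l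
  have h3 : l * (l - 1) / 2 * 2 ≤ l * (l - 1) := Nat.div_mul_le_self _ _
  obtain ⟨k, rfl⟩ := Nat.exists_eq_add_of_le hl
  rw [h2] at h1
  have h4 : (1 + k) * (1 + k - 1) = (1 + k) * k := by rw [Nat.add_sub_cancel_left]
  rw [h4] at h1 h3
  nlinarith

end Pool.Agent.Work.MP_49280d_co
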