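import Pool.Agent.Work.MP_49280d_co.Gold
import Pool.Agent.Work.MP_49280d_co.Nbr

/-!
# `limsup M_3(l, 2) / l ^ 2 ≥ 3 / 2`
-/

set_option autoImplicit false

open Finset Filter Topology

namespace Pool.Agent.Work.MP_49280d_co

lemma good_pow (k : ℕ) : Good (4 * (2 ^ k) ^ 2 + 6 * 2 ^ k) (12 * (2 ^ k) ^ 4) := by
  obtain ⟨n', hn', h1, h2⟩ : ∃ n', Odd n' ∧ k ≤ n' ∧ n' ≤ k + 1 := by
    rcases Nat.even_or_odd k with h | h
    · exact ⟨k + 1, h.add_one, by omega, le_rfl⟩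
    · exact ⟨k, h, le_rfl, by omega⟩
  have h3 : 2 ^ k ≤ 2 ^ n' := Nat.pow_le_pow_right (by norm_num) h1
  have h4 : 2 ^ n' ≤ 2 ^ (k + 1) := Nat.pow_le_pow_right (by norm_num) h2
  have h5 : 2 ^ (2 * k + 1) = 2 * (2 ^ k) ^ 2 := by rw [pow_succ, pow_mul']; ring
  have h6 : 2 ^ (k + 1) = 2 * 2 ^ k := by rw [pow_succ]; ring
  have g1 : Good (2 * 2 ^ n' + (2 ^ n' - 1)) (3 * (2 ^ n') ^ 2) :=
    good_two_pow hn' (good_base _)
  have g2 : Good (6 * 2 ^ k) (2 ^ (2 * k + 1)) := by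
    refine (g1.mono ?_).pad (by omega)
    rw [h5]
    nlinarith [Nat.pow_le_pow_left h3 2]
  have g3 := good_two_pow (n := 2 * k + 1) ⟨k, rfl⟩ g2
  rw [h5] at g3
  refine (g3.pad (by omega)).mono (le_of_eq (by ring))

lemma M3_pow (k : ℕ) : 24 * (2 ^ k) ^ 4 ≤ M3 (4 * (2 ^ k) ^ 2 + 6 * 2 ^ k) := by
  have h := (good_pow k).le_M3 (by
    have : 1 ≤ 2 ^ k := Nat.one_le_two_pow
    nlinarith)
  calc 24 * (2 ^ k) ^ 4 = 2 * (12 * (2 ^ k) ^ 4) := by ring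
    _ ≤ _ := h

lemma ratio_le (l : ℕ) : (M3 l : ℝ) / (l : ℝ) ^ 2 ≤ 5 := by
  rcases Nat.eq_zero_or_pos l with rfl | hl
  · simp
  · rw [div_le_iff₀ (by positivity)]
    exact_mod_cast M3_le hl

lemma bddUnder : IsBoundedUnder (· ≤ ·) atTop (fun l : ℕ => (M3 l : ℝ) / (l : ℝ) ^ 2) :=
  isBoundedUnder_of ⟨5, ratio_le⟩

lemma bddUnder' : IsBoundedUnder (· ≥ ·) atTop (fun l : ℕ => (M3 l : ℝ) / (l : ℝ) ^ 2) :=
  isBoundedUnder_of ⟨0, fun l => by positivity⟩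

theorem three_halves_le_limsup :
    (3 / 2 : ℝ) ≤ limsup (fun l : ℕ => (M3 l : ℝ) / (l : ℝ) ^ 2) atTop := by
  apply le_of_forall_lt
  intro c hc
  apply lt_of_lt_of_le (b := (c + 3 / 2) / 2) (by linarith)
  apply le_limsup_of_frequently_le _ bddUnder
  -- the ratio along the sequence
  have hT : Tendsto (fun k : ℕ => (24 * ((2 : ℝ) ^ k) ^ 4) / (4 * (2 ^ k) ^ 2 + 6 * 2 ^ k) ^ 2)
      atTop (𝓝 (3 / 2)) := by
    have h1 : Tendsto (fun k : ℕ => (1 / 2 : ℝ) ^ k) atTop (𝓝 0) :=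
      tendsto_pow_atTop_nhds_zero_of_lt_one (by norm_num) (by norm_num)
    have h2 : Tendsto (fun k : ℕ => 24 / (4 + 6 * (1 / 2 : ℝ) ^ k) ^ 2) atTop
        (𝓝 (24 / (4 + 6 * 0) ^ 2)) := by
      apply Tendsto.div tendsto_const_nhds
      · exact (tendsto_const_nhds.add (tendsto_const_nhds.mul h1)).pow 2
      · norm_num
    have h3 : (24 / (4 + 6 * 0) ^ 2 : ℝ) = 3 / 2 := by norm_num
    rw [h3] at h2
    refine h2.congr (fun k => ?_)
    have hX : (0 : ℝ) < 2 ^ k := by positivity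
    have : (1 / 2 : ℝ) ^ k = 1 / 2 ^ k := by rw [div_pow, one_pow]
    rw [this]
    field_simp
  have hev := (hT.eventually (lt_mem_nhds (show (c + 3 / 2) / 2 < 3 / 2 by linarith)))
  rw [frequently_atTop]
  intro a
  obtain ⟨k₀, hk₀⟩ := eventually_atTop.1 hev
  have hk := hk₀ (max a k₀) (le_max_right _ _)
  refine ⟨4 * (2 ^ (max a k₀)) ^ 2 + 6 * 2 ^ (max a k₀), ?_, ?_⟩
  · have h1 : max a k₀ < 2 ^ (max a k₀) := Nat.lt_two_pow_self
    have h2 := le_max_left a k₀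
    nlinarith
  · refine hk.le.trans ?_
    have h := M3_pow (max a k₀)
    push_cast
    gcongr
    exact_mod_cast h

end Pool.Agent.Work.MP_49280d_co
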